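import Pool.Agent.Helper11.NP.PCQ

set_option autoImplicit false

namespace Pool.Agent.Helper20.NP

open Pool.Agent.Helper21.DN

universe u

/-- the `p`-power map is a homomorphism -/
theorem gb_pow (p : ℕ) [hp : Fact p.Prime] (hp2 : p ≠ 2) {G : Type u} [Group G] {Z : Subgroup G}
    (hZc : ∀ z ∈ Z, ∀ g : G, g * z = z * g) (hZp : ∀ z ∈ Z, z ^ p = 1)
    (hc : ∀ x y : G, x * y * x⁻¹ * y⁻¹ ∈ Z) (a b : G) : (a * b) ^ p = a ^ p * b ^ p := by
  set c : G := b⁻¹ * a⁻¹ * (b⁻¹)⁻¹ * (a⁻¹)⁻¹ with hcdef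
  have hcZ : c ∈ Z := hc b⁻¹ a⁻¹
  have hba : b * a = a * b * c := by
    rw [hcdef]
    group
  rw [pcq_mul_pow hba (hZc c hcZ a) (hZc c hcZ b) p]
  have h6 : c ^ (p * (p - 1) / 2) = 1 := by
    have hodd : Odd p := hp.out.odd_of_ne_two hp2
    obtain ⟨m, hm⟩ := hodd
    have e : p * (p - 1) / 2 = p * m := by
      have : p - 1 = 2 * m := by omega
      rw [this]
      have : p * (2 * m) = 2 * (p * m) := by ring
      rw [this]
      exact Nat.mul_div_cancel_left _ (by norm_num)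
    rw [e, pow_mul, hZp c hcZ, one_pow]
  rw [h6, mul_one]

theorem gb_solve (p : ℕ) [hp : Fact p.Prime] {G : Type u} [Group G] [Finite G] {ζ u w : G}
    (hζ : orderOf ζ = p) (hu : u ∈ Subgroup.zpowers ζ) (hw : w ∈ Subgroup.zpowers ζ)
    (hw1 : w ≠ 1) : ∃ c : ℕ, u * w ^ c = 1 := by
  obtain ⟨a, rfl⟩ : ∃ a : ℕ, ζ ^ a = u := by
    have := mem_powers_iff_mem_zpowers.2 hu
    exact this
  obtain ⟨b, rfl⟩ : ∃ a : ℕ, ζ ^ a = w := by
    have := mem_powers_iff_mem_zpowers.2 hw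
    exact this
  have hb : ((b : ℕ) : ZMod p) ≠ 0 := by
    intro h
    rw [ZMod.natCast_eq_zero_iff] at h
    apply hw1
    rw [← orderOf_dvd_iff_pow_eq_one, hζ]
    exact h
  refine ⟨(-(a : ZMod p) / (b : ZMod p)).val, ?_⟩
  rw [← pow_mul, ← pow_add, ← orderOf_dvd_iff_pow_eq_one, hζ, ← ZMod.natCast_eq_zero_iff]
  push_cast
  rw [ZMod.natCast_zmod_val]
  field_simp
  ring

theorem gb_lin (p : ℕ) [hp : Fact p.Prime] {G : Type u} [Group G] [Finite G] {ζ : G}
    (hζ : orderOf ζ = p) (hZp : ∀ z ∈ Subgroup.zpowers ζ, z ^ p = 1)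
    (hpw : ∀ x : G, x ^ p ∈ Subgroup.zpowers ζ)
    (hmul : ∀ a b : G, (a * b) ^ p = a ^ p * b ^ p) (V : Type u) [AddCommGroup V]
    [Module (ZMod p) V] [Finite V] (q : G → V) (hq : Function.Surjective q)
    (hadd : ∀ a b, q (a * b) = q a + q b) (hker : ∀ g, q g = 0 ↔ g ∈ Subgroup.zpowers ζ)
    (y : G) (hy : y ^ p ≠ 1) : ∃ (r : ℕ) (φ : G →* Multiplicative (Fin (r + 1) → ZMod p))
    (x : Fin (r + 1) → G), Function.Surjective φ ∧ φ.ker = Subgroup.zpowers ζ ∧ x 0 = y ∧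
    (∀ i, φ (x i) = Multiplicative.ofAdd (Pi.single i 1)) ∧ ∀ i, i ≠ 0 → x i ^ p = 1 := by
  classical
  have hq1 : q 1 = 0 := (hker 1).2 (Subgroup.one_mem _)
  have hqp : ∀ (g : G) (n : ℕ), q (g ^ n) = n • q g := by
    intro g n
    induction n with
    | zero => rw [pow_zero, hq1, zero_smul]
    | succ n ih => rw [pow_succ, hadd, ih, succ_nsmul]
  have hqi : ∀ g : G, q g⁻¹ = -q g := by
    intro g
    rw [eq_neg_iff_add_eq_zero, ← hadd, inv_mul_cancel, hq1]
  -- the subspace of the elements with trivial `p`-th power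
  let N0 : AddSubgroup V :=
    { carrier := {v | ∃ g : G, q g = v ∧ g ^ p = 1}
      add_mem' := by
        rintro _ _ ⟨g, rfl, h⟩ ⟨g', rfl, h'⟩
        exact ⟨g * g', hadd g g', by rw [hmul, h, h', one_mul]⟩
      zero_mem' := ⟨1, hq1, one_pow p⟩
      neg_mem' := by
        rintro _ ⟨g, rfl, h⟩
        exact ⟨g⁻¹, hqi g, by rw [inv_pow, h, inv_one]⟩ }
  let N : Submodule (ZMod p) V := AddSubgroup.toZModSubmodule p N0
  have hN : ∀ g : G, q g ∈ N ↔ g ^ p = 1 := by
    intro g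
    have h1 : q g ∈ N ↔ ∃ g' : G, q g' = q g ∧ g' ^ p = 1 := Iff.rfl
    rw [h1]
    constructor
    · rintro ⟨g', h3, h6⟩
      have h4 : g'⁻¹ * g ∈ Subgroup.zpowers ζ := by
        rw [← hker, hadd, hqi, h3, neg_add_cancel]
      have h5 : g = g' * (g'⁻¹ * g) := by group
      rw [h5, hmul, h6, hZp _ h4, one_mul]
    · intro h
      exact ⟨g, rfl, h⟩
  have hsm : ∀ (c : ZMod p) (g : G), c • q g = q (g ^ c.val) := by
    intro c g
    have h1 : c • q g = c.val • q g := by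
      rw [← Nat.cast_smul_eq_nsmul (ZMod p) c.val, ZMod.natCast_zmod_val]
    rw [h1, hqp]
  have hli : ∀ (c : ZMod p), ∀ x ∈ N, c • q y + x = 0 → c = 0 := by
    intro c x hx h
    obtain ⟨g, rfl⟩ := hq x
    rw [hN] at hx
    rw [hsm, ← hadd, hker] at h
    have h2 := hZp _ h
    rw [hmul, hx, mul_one, ← pow_mul, mul_comm, pow_mul] at h2
    have h3 : orderOf (y ^ p) = p := orderOf_eq_prime (hZp _ (hpw y)) hy
    have h4 : p ∣ c.val := by
      rw [← orderOf_dvd_iff_pow_eq_one, h3] at h2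
      exact h2
    have h5 : c.val < p := ZMod.val_lt c
    have h6 : c.val = 0 := Nat.eq_zero_of_dvd_of_lt h4 h5
    exact (ZMod.val_eq_zero c).1 h6
  have hsp : ∀ z : V, ∃ c : ZMod p, z + c • q y ∈ N := by
    intro z
    obtain ⟨g, rfl⟩ := hq z
    obtain ⟨c, hc⟩ := gb_solve p hζ (hpw g) (hpw y) hy
    refine ⟨(c : ZMod p), ?_⟩
    rw [hsm, ← hadd, hN, hmul, ← pow_mul, mul_comm (((c : ZMod p)).val) p, pow_mul,
      ZMod.val_natCast, ← hc]
    congr 1
    have h3 : orderOf (y ^ p) = p := orderOf_eq_prime (hZp _ (hpw y)) hy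
    have h4 := pow_mod_orderOf (y ^ p) c
    rw [h3] at h4
    exact h4
  let c := Module.finBasis (ZMod p) N
  let b := Module.Basis.mkFinCons (q y) c hli hsp
  have hb0 : b 0 = q y := by
    show (Module.Basis.mkFinCons (q y) c hli hsp) 0 = _
    rw [Module.Basis.coe_mkFinCons]
    rfl
  have hbs : ∀ i, b (Fin.succ i) = (c i : V) := by
    intro i
    show (Module.Basis.mkFinCons (q y) c hli hsp) (Fin.succ i) = _
    rw [Module.Basis.coe_mkFinCons]
    rfl
  choose x hx using fun i => hq (c i : V)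
  refine ⟨Module.finrank (ZMod p) N,
    MonoidHom.mk' (fun g => Multiplicative.ofAdd (b.equivFun (q g)))
      (by
        intro g g'
        rw [hadd, map_add]
        rfl), Fin.cons y x, ?_, ?_, rfl, ?_, ?_⟩
  · intro v
    obtain ⟨w, hw⟩ := b.equivFun.surjective (Multiplicative.toAdd v)
    obtain ⟨g, rfl⟩ := hq w
    exact ⟨g, by
      show Multiplicative.ofAdd (b.equivFun (q g)) = v
      rw [hw]
      rfl⟩
  · ext g
    rw [MonoidHom.mem_ker]
    show Multiplicative.ofAdd (b.equivFun (q g)) = 1 ↔ _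
    rw [ofAdd_eq_one, LinearEquiv.map_eq_zero_iff, hker]
  · intro i
    have key : ∀ i, q ((Fin.cons y x : Fin (Module.finrank (ZMod p) N + 1) → G) i) = b i := by
      intro i
      refine Fin.cases ?_ (fun i => ?_) i
      · exact hb0.symm
      · rw [hbs]
        exact hx i
    show Multiplicative.ofAdd (b.equivFun (q
      ((Fin.cons y x : Fin (Module.finrank (ZMod p) N + 1) → G) i))) = _
    rw [key]
    congr 1
    ext j
    rw [Module.Basis.equivFun_self, Pi.single_apply]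
    by_cases h : i = j
    · rw [if_pos h, if_pos h.symm]
    · rw [if_neg h, if_neg (fun h' => h h'.symm)]
  · intro i
    refine Fin.cases ?_ (fun i => ?_) i
    · intro h
      exact absurd rfl h
    · intro _
      show (x i) ^ p = 1
      rw [← hN, hx]
      exact (c i).2

theorem st_GB : ST_GB.{u} := by
  intro p hp hp2 G _ _ ζ hζc hζ hpw hcm y hy
  have hZc : ∀ z ∈ Subgroup.zpowers ζ, ∀ g : G, g * z = z * g := by
    intro z hz g
    have h1 : z ∈ Subgroup.center G := (Subgroup.zpowers_le.2 hζc) hz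
    exact Subgroup.mem_center_iff.1 h1 g
  have hZp : ∀ z ∈ Subgroup.zpowers ζ, z ^ p = 1 := by
    intro z hz
    obtain ⟨n, rfl⟩ := Subgroup.mem_zpowers_iff.1 hz
    rw [← zpow_natCast, ← zpow_mul, mul_comm, zpow_mul, zpow_natCast, ← hζ, pow_orderOf_eq_one,
      one_zpow]
  have hZn : (Subgroup.zpowers ζ).Normal := ⟨fun z hz g => by
    rw [hZc z hz g, mul_inv_cancel_right]
    exact hz⟩
  have hmul := gb_pow p hp2 hZc hZp hcm
  let icg : CommGroup (G ⧸ Subgroup.zpowers ζ) :=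
    { (inferInstance : Group (G ⧸ Subgroup.zpowers ζ)) with
      mul_comm := by
        intro q1 q2
        obtain ⟨a, rfl⟩ := QuotientGroup.mk_surjective q1
        obtain ⟨b, rfl⟩ := QuotientGroup.mk_surjective q2
        show ((a * b : G) : G ⧸ Subgroup.zpowers ζ) = ((b * a : G) : G ⧸ Subgroup.zpowers ζ)
        rw [QuotientGroup.eq]
        have := hcm b⁻¹ a⁻¹
        have e : (a * b)⁻¹ * (b * a) = b⁻¹ * a⁻¹ * (b⁻¹)⁻¹ * (a⁻¹)⁻¹ := by group
        rw [e]
        exact this }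
  have hp0 : ∀ x : Additive (G ⧸ Subgroup.zpowers ζ), p • x = 0 := by
    intro x
    obtain ⟨g, hg⟩ := QuotientGroup.mk_surjective (Additive.toMul x)
    have h2 : (Additive.toMul x) ^ p = 1 := by
      rw [← hg]
      exact (QuotientGroup.eq_one_iff _).2 (hpw g)
    exact h2
  let imod : Module (ZMod p) (Additive (G ⧸ Subgroup.zpowers ζ)) :=
    AddCommGroup.zmodModule (n := p) hp0
  have hfin : Finite (Additive (G ⧸ Subgroup.zpowers ζ)) :=
    (inferInstance : Finite (G ⧸ Subgroup.zpowers ζ))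
  refine gb_lin p hζ hZp hpw hmul (Additive (G ⧸ Subgroup.zpowers ζ))
    (fun g => Additive.ofMul (g : G ⧸ Subgroup.zpowers ζ)) ?_ ?_ ?_ y hy
  · intro v
    obtain ⟨g, hg⟩ := QuotientGroup.mk_surjective (Additive.toMul v)
    exact ⟨g, hg⟩
  · intro a b
    rfl
  · intro g
    exact QuotientGroup.eq_one_iff g

end Pool.Agent.Helper20.NP
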