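import Pool.Agent.Helper20.NP.Stmts

set_option autoImplicit false

namespace Pool.Agent.Helper20.NP

open Pool.Agent.Helper21.DN

universe u

theorem pcq_pow_comm {G : Type u} [Group G] {a b c : G} (h : b * a = a * b * c)
    (hb : b * c = c * b) (n : ℕ) : b ^ n * a = a * b ^ n * c ^ n := by
  induction n with
  | zero => simp
  | succ n ih =>
    have h1 : Commute b (c ^ n) := (show Commute b c from hb).pow_right n
    calc b ^ (n + 1) * a = b * (b ^ n * a) := by rw [pow_succ' b n, mul_assoc]
      _ = (b * a) * b ^ n * c ^ n := by rw [ih]; group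
      _ = a * b * c * b ^ n * c ^ n := by rw [h]
      _ = a * b * (c * b ^ n) * c ^ n := by group
      _ = a * b * (b ^ n * c) * c ^ n := by
          rw [((show Commute b c from hb).pow_left n).eq]
      _ = a * b ^ (n + 1) * c ^ (n + 1) := by rw [pow_succ' b n, pow_succ' c n]; group

theorem pcq_mul_pow {G : Type u} [Group G] {a b c : G} (h : b * a = a * b * c)
    (ha : a * c = c * a) (hb : b * c = c * b) (n : ℕ) :
    (a * b) ^ n = a ^ n * b ^ n * c ^ (n * (n - 1) / 2) := by
  have key : ∀ m : ℕ, (a * b) ^ m = a ^ m * b ^ m * c ^ (∑ i ∈ Finset.range m, i) := by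
    intro m
    induction m with
    | zero => simp
    | succ m ih =>
      rw [Finset.sum_range_succ, pow_succ (a * b) m, ih]
      set e := ∑ i ∈ Finset.range m, i
      have h1 : c ^ e * (a * b) = (a * b) * c ^ e := by
        have k1 : Commute (a * b) c := (show Commute a c from ha).mul_left hb
        exact ((k1.pow_right e).eq).symm
      calc a ^ m * b ^ m * c ^ e * (a * b) = a ^ m * b ^ m * (c ^ e * (a * b)) := by group
        _ = a ^ m * (b ^ m * a) * b * c ^ e := by rw [h1]; group
        _ = a ^ m * (a * b ^ m * c ^ m) * b * c ^ e := by rw [pcq_pow_comm h hb m]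
        _ = a ^ (m + 1) * b ^ m * (c ^ m * b) * c ^ e := by rw [pow_succ a m]; group
        _ = a ^ (m + 1) * b ^ m * (b * c ^ m) * c ^ e := by
            rw [((show Commute b c from hb).pow_right m).eq]
        _ = a ^ (m + 1) * b ^ (m + 1) * c ^ (e + m) := by
            rw [pow_succ b m, add_comm e m, pow_add c m e]
            group
  rw [key n, Finset.sum_range_id]

theorem pcq_main (p : ℕ) [hp : Fact p.Prime] (hp2 : p ≠ 2) (n : ℕ) :
    ∀ (G : Type u) [Group G] [Finite G], Nat.card G = n → IsPGroup p G →
    (∀ x : G, x ^ p = 1 → x ∈ Subgroup.center G) →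
    ∀ x y : G, (x ^ p) ^ p = 1 → (x * y * x⁻¹ * y⁻¹) ^ p = 1 := by
  induction n using Nat.strong_induction_on with
  | _ n ih =>
    intro G _ _ hn hG hc x y hx
    by_cases htop : Subgroup.zpowers x = ⊤
    · have hy : y ∈ Subgroup.zpowers x := by rw [htop]; exact Subgroup.mem_top y
      obtain ⟨k, rfl⟩ := Subgroup.mem_zpowers_iff.1 hy
      have : x * x ^ k * x⁻¹ * (x ^ k)⁻¹ = 1 := by group
      rw [this, one_pow]
    · obtain ⟨M, hM, hxM⟩ := (eq_top_or_exists_le_coatom (Subgroup.zpowers x)).resolve_left htop
      have hnil : Group.IsNilpotent G := hG.isNilpotent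
      have hMn : M.Normal :=
        Subgroup.NormalizerCondition.normal_of_coatom M Group.normalizerCondition_of_isNilpotent hM
      have hxM' : x ∈ M := hxM (Subgroup.mem_zpowers x)
      have hyM : y * x * y⁻¹ ∈ M := hMn.conj_mem x hxM' y
      have hcard : Nat.card M < n := by
        rw [← hn]
        refine lt_of_le_of_ne (Nat.card_le_card_of_injective _ Subtype.val_injective) ?_
        intro h
        exact hM.1 ((Subgroup.card_eq_iff_eq_top M).1 h)
      have hcM : ∀ z : M, z ^ p = 1 → z ∈ Subgroup.center M := by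
        intro z hz
        rw [Subgroup.mem_center_iff]
        intro w
        apply Subtype.ext
        have h1 : (z : G) ^ p = 1 := by
          have := congrArg Subtype.val hz
          simpa using this
        exact (Subgroup.mem_center_iff.1 (hc z h1)) w
      have h2 := ih _ hcard M rfl (hG.to_subgroup M) hcM ⟨x, hxM'⟩ ⟨y * x * y⁻¹, hyM⟩ (by
        apply Subtype.ext
        simpa using hx)
      have h3 : (x * (y * x * y⁻¹) * x⁻¹ * (y * x * y⁻¹)⁻¹) ^ p = 1 := by
        have := congrArg Subtype.val h2
        simpa using this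
      -- the commutator
      have hxp : x ^ p ∈ Subgroup.center G := hc _ hx
      set b : G := (y * x * y⁻¹)⁻¹ with hb
      set c : G := x⁻¹ * (x * (y * x * y⁻¹) * x⁻¹ * (y * x * y⁻¹)⁻¹) * x with hcdef
      have hcp : c ^ p = 1 := by
        have e : c = x⁻¹ * (x * (y * x * y⁻¹) * x⁻¹ * (y * x * y⁻¹)⁻¹) * (x⁻¹)⁻¹ := by
          rw [hcdef, inv_inv]
        rw [e, conj_pow, h3]
        group
      have hcc := Subgroup.mem_center_iff.1 (hc c hcp)
      have hba : b * x = x * b * c := by
        rw [hb, hcdef]
        group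
      have h4 := pcq_mul_pow hba (hcc x) (hcc b) p
      have h5 : b ^ p = (x ^ p)⁻¹ := by
        rw [hb, inv_pow, conj_pow, (Subgroup.mem_center_iff.1 hxp) y]
        group
      have h6 : c ^ (p * (p - 1) / 2) = 1 := by
        have hodd : Odd p := hp.out.odd_of_ne_two hp2
        obtain ⟨m, hm⟩ := hodd
        have e : p * (p - 1) / 2 = p * m := by
          have : p - 1 = 2 * m := by omega
          rw [this]
          have : p * (2 * m) = 2 * (p * m) := by ring
          rw [this]
          exact Nat.mul_div_cancel_left _ (by norm_num)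
        rw [e, pow_mul, hcp, one_pow]
      have h7 : x * y * x⁻¹ * y⁻¹ = x * b := by
        rw [hb]
        group
      rw [h7, h4, h5, h6]
      group

theorem st_PCQ : ST_PCQ.{u} := by
  intro p _ hp2 G _ _ hG hc x y hx
  exact pcq_main p hp2 (Nat.card G) G rfl hG hc x y hx

end Pool.Agent.Helper20.NP
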