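import Pool.Agent.Helper20.NP.Stmts

set_option autoImplicit false

namespace Pool.Agent.Helper20.NP

open Pool.Agent.Helper21.DN

universe u

section

variable {G : Type u} [Group G] [Fintype G]

theorem qs_cs_eq (f : G → ℕ) (N : Subgroup G) (g g0 : G) (h : g⁻¹ * g0 ∈ N) :
    cs f N g = cs f N g0 := by
  classical
  unfold cs
  refine Finset.sum_bij' (fun j _ => g0⁻¹ * g * j) (fun j _ => g⁻¹ * g0 * j) ?_ ?_ ?_ ?_ ?_
  · intro j hj
    rw [Finset.mem_filter] at hj ⊢
    refine ⟨Finset.mem_univ _, N.mul_mem ?_ hj.2⟩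
    have := N.inv_mem h
    rwa [mul_inv_rev, inv_inv] at this
  · intro j hj
    rw [Finset.mem_filter] at hj ⊢
    exact ⟨Finset.mem_univ _, N.mul_mem h hj.2⟩
  · intro j _
    group
  · intro j _
    group
  · intro j _
    congr 1
    group

theorem qs_le_x0 (f : G → ℕ) (g : G) (hg : g ≠ 1) : f g ≤ x0 f := by
  classical
  unfold x0
  exact Finset.le_sup (f := f) (Finset.mem_filter.2 ⟨Finset.mem_univ _, hg⟩)

/-- the sum over a coset, split at `1` -/
theorem qs_cs_split (f : G → ℕ) (N : Subgroup G) (g : G) (F : G → ℕ)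
    (hF : ∀ j ∈ N, j ≠ 1 → f (g * j) = F j) : cs f N g = f g + SI F N := by
  classical
  unfold cs SI
  have h1 : (Finset.univ.filter (fun j : G => j ∈ N)) =
      insert 1 (Finset.univ.filter (fun j : G => j ∈ N ∧ j ≠ 1)) := by
    ext j
    rw [Finset.mem_insert, Finset.mem_filter, Finset.mem_filter]
    constructor
    · rintro ⟨_, hj⟩
      by_cases h : j = 1
      · exact Or.inl h
      · exact Or.inr ⟨Finset.mem_univ _, hj, h⟩
    · rintro (h | ⟨_, hj, _⟩)
      · rw [h]
        exact ⟨Finset.mem_univ _, N.one_mem⟩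
      · exact ⟨Finset.mem_univ _, hj⟩
  rw [h1, Finset.sum_insert, mul_one]
  · congr 1
    refine Finset.sum_congr rfl (fun j hj => ?_)
    rw [Finset.mem_filter] at hj
    exact hF j hj.2.1 hj.2.2
  · rw [Finset.mem_filter]
    rintro ⟨_, _, h⟩
    exact h rfl

theorem qs_SI_mono (f F : G → ℕ) (N : Subgroup G) (h : ∀ j ∈ N, j ≠ 1 → F j ≤ f j) :
    SI F N ≤ SI f N := by
  classical
  unfold SI
  refine Finset.sum_le_sum (fun j hj => ?_)
  rw [Finset.mem_filter] at hj
  exact h j hj.2.1 hj.2.2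

theorem qs_split (f : G → ℕ) (N : Subgroup G) : SI f N + SO f N = S1 f := by
  classical
  unfold SI SO S1
  rw [← Finset.sum_union]
  · congr 1
    ext g
    rw [Finset.mem_union, Finset.mem_filter, Finset.mem_filter, Finset.mem_filter]
    constructor
    · rintro (⟨_, _, h⟩ | ⟨_, h⟩)
      · exact ⟨Finset.mem_univ _, h⟩
      · refine ⟨Finset.mem_univ _, ?_⟩
        rintro rfl
        exact h N.one_mem
    · rintro ⟨_, h⟩
      by_cases hg : g ∈ N
      · exact Or.inl ⟨Finset.mem_univ _, hg, h⟩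
      · exact Or.inr ⟨Finset.mem_univ _, hg⟩
  · rw [Finset.disjoint_left]
    intro g hg hg'
    rw [Finset.mem_filter] at hg hg'
    exact hg'.2 hg.2.1

theorem qs_S1_eq (f : G → ℕ) (t : Finset G) (ht : ∀ g, g ∈ t ↔ g ≠ 1) : S1 f = ∑ g ∈ t, f g := by
  classical
  unfold S1
  refine Finset.sum_congr ?_ (fun _ _ => rfl)
  ext g
  rw [Finset.mem_filter, ht]
  exact ⟨fun h => h.2, fun h => ⟨Finset.mem_univ _, h⟩⟩

theorem qs_x0_le (f : G → ℕ) (M : ℕ) (h : ∀ g, g ≠ 1 → f g ≤ M) : x0 f ≤ M := by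
  classical
  unfold x0
  refine Finset.sup_le (fun g hg => ?_)
  rw [Finset.mem_filter] at hg
  exact h g hg.2

theorem qs_fib (f : G → ℕ) (N : Subgroup G) [N.Normal] [Fintype (G ⧸ N)] (fQ : G ⧸ N → ℕ)
    (hQ : ∀ g : G, g ∉ N → Nat.card N * fQ (g : G ⧸ N) = cs f N g) :
    Nat.card N * S1 fQ = SO f N := by
  classical
  rw [qs_S1_eq fQ (Finset.univ.filter (fun q : G ⧸ N => q ≠ 1)) (fun q => by
    rw [Finset.mem_filter]
    exact ⟨fun h => h.2, fun h => ⟨Finset.mem_univ _, h⟩⟩)]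
  unfold SO
  rw [Finset.mul_sum]
  rw [← Finset.sum_fiberwise_of_maps_to (s := Finset.univ.filter (fun g : G => g ∉ N))
    (t := Finset.univ.filter (fun q : G ⧸ N => q ≠ 1)) (g := fun g : G => (g : G ⧸ N))]
  · refine Finset.sum_congr rfl (fun q hq => ?_)
    rw [Finset.mem_filter] at hq
    obtain ⟨g0, rfl⟩ := QuotientGroup.mk_surjective q
    have hg0 : g0 ∉ N := fun h => hq.2 ((QuotientGroup.eq_one_iff g0).2 h)
    rw [hQ g0 hg0]
    unfold cs
    refine Finset.sum_bij' (fun j _ => g0 * j) (fun g _ => g0⁻¹ * g) ?_ ?_ ?_ ?_ ?_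
    · intro j hj
      rw [Finset.mem_filter] at hj
      rw [Finset.mem_filter, Finset.mem_filter]
      refine ⟨⟨Finset.mem_univ _, ?_⟩, ?_⟩
      · intro h
        apply hg0
        have := N.mul_mem h (N.inv_mem hj.2)
        rwa [mul_inv_cancel_right] at this
      · exact QuotientGroup.mk_mul_of_mem g0 hj.2
    · intro g hg
      rw [Finset.mem_filter] at hg
      rw [Finset.mem_filter]
      refine ⟨Finset.mem_univ _, ?_⟩
      exact QuotientGroup.eq.1 hg.2.symm
    · intro j _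
      group
    · intro g _
      group
    · intro j _
      rfl
  · intro g hg
    rw [Finset.mem_filter] at hg ⊢
    refine ⟨Finset.mem_univ _, ?_⟩
    intro h
    exact hg.2 ((QuotientGroup.eq_one_iff g).1 h)

end

theorem st_QS (hCOS : ST_COS.{u}) : ST_QS.{u} := by
  classical
  intro p _ G _ _ f hf N _ _ fQ hQ
  have h4 : ∀ g : G, g ∉ N → cs f N g ≤ x0 f + SI f N := by
    intro g hg
    obtain ⟨g0, hg0, h1, h2, h3⟩ := hCOS G f hf N g hg
    rw [qs_cs_eq f N g g0 h1, qs_cs_split f N g0 (fun j => min (f g0) (f j)) h3]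
    have h5 : g0 ≠ 1 := by
      rintro rfl
      exact hg0 N.one_mem
    exact Nat.add_le_add (qs_le_x0 f g0 h5)
      (qs_SI_mono f _ N (fun j _ _ => min_le_right _ _))
  refine ⟨qs_fib f N fQ hQ, qs_split f N, ?_, h4⟩
  intro z hz hfz
  have hz1 : z ≠ 1 := by
    rintro rfl
    exact hz N.one_mem
  have h5 : cs f N z = x0 f + SI f N := by
    rw [← hfz]
    refine qs_cs_split f N z f ?_
    intro j hj hj1
    have hzj : z * j ≠ 1 := by
      intro h
      apply hz
      rw [mul_eq_one_iff_eq_inv.1 h]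
      exact N.inv_mem hj
    apply le_antisymm
    · have h6 := hf.mul z⁻¹ (z * j) (inv_ne_one.2 hz1) hzj (by
        rw [inv_mul_cancel_left]
        exact hj1)
      rw [inv_mul_cancel_left, hf.inv, hfz] at h6
      exact le_trans (le_min (qs_le_x0 f _ hzj) le_rfl) h6
    · have h6 := hf.mul z j hz1 hj1 hzj
      rw [hfz] at h6
      exact le_trans (le_min (qs_le_x0 f _ hj1) le_rfl) h6
  refine ⟨by rw [hQ z hz, h5], ?_⟩
  apply le_antisymm
  · apply qs_le_x0
    intro h
    exact hz ((QuotientGroup.eq_one_iff z).1 h)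
  · refine qs_x0_le fQ _ (fun q hq => ?_)
    obtain ⟨g, rfl⟩ := QuotientGroup.mk_surjective q
    have hg : g ∉ N := fun h => hq ((QuotientGroup.eq_one_iff g).2 h)
    have h7 : Nat.card N * fQ (g : G ⧸ N) ≤ Nat.card N * fQ (z : G ⧸ N) := by
      rw [hQ g hg, hQ z hz, h5]
      exact h4 g hg
    exact Nat.le_of_mul_le_mul_left h7 Nat.card_pos

end Pool.Agent.Helper20.NP
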