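import Pool.Agent.Helper20.NP.Stmts
import Pool.Agent.Helper24.DN.GRF

set_option autoImplicit false

namespace Pool.Agent.Helper20.NP

open Pool.Agent.Helper21.DN

universe u

theorem rq_iso {A B C : Type u} [Group A] [Group B] [Group C] (r : A →* B) (q : A →* C)
    (hr : Function.Surjective r) (hq : Function.Surjective q) (hk : r.ker = q.ker) :
    ∃ e : B ≃* C, ∀ a, e (r a) = q a := by
  refine ⟨(QuotientGroup.quotientKerEquivOfSurjective r hr).symm.trans
    ((QuotientGroup.quotientMulEquivOfEq hk).trans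
      (QuotientGroup.quotientKerEquivOfSurjective q hq)), ?_⟩
  intro a
  have h : (QuotientGroup.quotientKerEquivOfSurjective r hr).symm (r a) =
      (a : A ⧸ r.ker) := by
    rw [MulEquiv.symm_apply_eq]
    rfl
  rw [MulEquiv.trans_apply, h]
  rfl

theorem st_RQ (hP3 : ST_P3.{u}) (hDIFR : ST_DIFR.{u}) : ST_RQ.{u} := by
  classical
  intro p _ G _ _ f hf N _ _
  obtain ⟨k, K, L, ik, icp, iac, iK, iL, iA, iF, iG, κ, v, D, e, j, hR, hpG, hD, hj⟩ := hf
  have hpL : IsPGroup p (L ≃ₐ[K] L) := hpG.of_equiv j.symm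
  set J : Subgroup (L ≃ₐ[K] L) := N.comap j.toMonoidHom with hJ
  have hJn : J.Normal := Subgroup.Normal.comap inferInstance _
  have hmJ : ∀ σ, σ ∈ J ↔ j σ ∈ N := fun σ => Iff.rfl
  set F : IntermediateField K L := IntermediateField.fixedField J with hF
  have hfix : F.fixingSubgroup = J := by
    rw [hF, IntermediateField.fixingSubgroup_fixedField]
  have hgal : IsGalois K F := IsGalois.of_fixedField_normal_subgroup J
  have hnF : Normal K F := hgal.to_normal
  obtain ⟨vF, t1, t2⟩ := hR.sub F
  have hRF : Ram κ vF := grf_quot κ v hR F vF t1 t2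
  obtain ⟨D', hD'1, hD'2⟩ := hDIFR p K L v D e hD F vF t2
  set r : (L ≃ₐ[K] L) →* (F ≃ₐ[K] F) := AlgEquiv.restrictNormalHom F with hr
  have hrs : Function.Surjective r := AlgEquiv.restrictNormalHom_surjective L
  have hker : r.ker = J := by
    rw [hr, IntermediateField.restrictNormalHom_ker, hfix]
  obtain ⟨j', hj'⟩ := rq_iso r ((QuotientGroup.mk' N).comp j.toMonoidHom) hrs
    ((QuotientGroup.mk'_surjective N).comp j.surjective) (by
      rw [hker]
      ext σ
      rw [hmJ, MonoidHom.mem_ker]
      exact (QuotientGroup.eq_one_iff (j σ)).symm)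
  refine ⟨fun q => s vF (j'.symm q), ⟨k, K, F, ik, icp, iac, iK, inferInstance, inferInstance,
    inferInstance, hgal, κ, vF, D', e, j', hRF, hpG.to_quotient N, hD'2, ?_⟩, ?_⟩
  · intro σ _
    show s vF (j'.symm (j' σ)) = s vF σ
    rw [MulEquiv.symm_apply_apply]
  · intro g hg
    obtain ⟨σ, rfl⟩ := j.surjective g
    have hσ : σ ∉ F.fixingSubgroup := by
      rw [hfix]
      exact hg
    have h1 := hP3 p k K L κ v hR hpL F vF t1 t2 σ hσ
    have h2 : j'.symm ((j σ : G) : G ⧸ N) = σ.restrictNormal F := by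
      rw [MulEquiv.symm_apply_eq]
      exact (hj' σ).symm
    have h3 : Nat.card N = Module.finrank F L := by
      have h4 : Nat.card J = Module.finrank F L := by
        rw [hF, IntermediateField.finrank_fixedField_eq_card]
      rw [← h4]
      exact (Nat.card_congr (MulEquiv.subgroupCongr rfl : J ≃* J).toEquiv).trans
        (Nat.card_congr ((j.subgroupMap J).toEquiv.trans
          (MulEquiv.subgroupCongr (show J.map j.toMonoidHom = N from
            Subgroup.map_comap_eq_self_of_surjective j.surjective N)).toEquiv)) |>.symm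
    show Nat.card N * s vF (j'.symm ((j σ : G) : G ⧸ N)) = cs f N (j σ)
    rw [h2, h3, h1, hfix]
    unfold cs
    symm
    refine Finset.sum_bij' (fun n _ => j.symm n) (fun τ _ => j τ) ?_ ?_ ?_ ?_ ?_
    · intro n hn
      rw [Finset.mem_filter] at hn ⊢
      refine ⟨Finset.mem_univ _, ?_⟩
      rw [hmJ, MulEquiv.apply_symm_apply]
      exact hn.2
    · intro τ hτ
      rw [Finset.mem_filter] at hτ ⊢
      exact ⟨Finset.mem_univ _, hτ.2⟩
    · intro n _
      exact j.apply_symm_apply n
    · intro τ _
      exact j.symm_apply_apply τ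
    · intro n hn
      rw [Finset.mem_filter] at hn
      have h5 : j σ * n = j (σ * j.symm n) := by
        rw [map_mul, MulEquiv.apply_symm_apply]
      rw [h5]
      apply hj
      intro h6
      apply hg
      have h7 : j σ * n = 1 := by rw [h5, h6, map_one]
      rw [mul_eq_one_iff_eq_inv.1 h7]
      exact N.inv_mem hn.2

end Pool.Agent.Helper20.NP
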